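import Pool.Agent.H4.AM.Targets

/-!
# Alperin–McKay (MP_657073_al): module X1, powers of a finite group are stabilisers in
`F_p^(N^3) ⋊ S_N`
-/

open scoped Classical
open scoped commutatorElement

namespace AMx

namespace X1

/-! ## The group theoretic part: a relation with automorphism group `T` -/

section relation

variable {p N : ℕ} [Fact p.Prime]

/-- the action of a permutation on triples -/
def tr (σ : Equiv.Perm (Fin N)) (r : Fin N × Fin N × Fin N) : Fin N × Fin N × Fin N :=
  (σ r.1, σ r.2.1, σ r.2.2)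

theorem tr_mul (σ τ : Equiv.Perm (Fin N)) (r) : tr (σ * τ) r = tr σ (tr τ r) := rfl

theorem tr_one (r : Fin N × Fin N × Fin N) : tr 1 r = r := rfl

/-- as an equivalence -/
def trE (σ : Equiv.Perm (Fin N)) : Fin N × Fin N × Fin N ≃ Fin N × Fin N × Fin N where
  toFun := tr σ
  invFun := tr σ⁻¹
  left_inv := fun r => by rw [← tr_mul, inv_mul_cancel, tr_one]
  right_inv := fun r => by rw [← tr_mul, mul_inv_cancel, tr_one]

theorem actX_toAdd (σ : Equiv.Perm (Fin N))
    (f : Multiplicative (Fin N × Fin N × Fin N → ZMod p)) (r) :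
    (actX p N σ f).toAdd r = f.toAdd (tr σ⁻¹ r) := rfl

/-- the sum over the relation -/
noncomputable def sm (R : Fin N × Fin N × Fin N → Prop)
    (f : Multiplicative (Fin N × Fin N × Fin N → ZMod p)) : ZMod p :=
  ∑ r, if R r then f.toAdd r else 0

theorem sm_mul (R : Fin N × Fin N × Fin N → Prop)
    (f g : Multiplicative (Fin N × Fin N × Fin N → ZMod p)) :
    sm R (f * g) = sm R f + sm R g := by
  unfold sm
  rw [← Finset.sum_add_distrib]
  refine Finset.sum_congr rfl (fun r _ => ?_)
  split_ifs
  · rfl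
  · simp

theorem sm_one (R : Fin N × Fin N × Fin N → Prop) :
    sm R (1 : Multiplicative (Fin N × Fin N × Fin N → ZMod p)) = 0 := by
  unfold sm
  refine Finset.sum_eq_zero (fun r _ => ?_)
  split_ifs
  · rfl
  · rfl

theorem sm_inv (R : Fin N × Fin N × Fin N → Prop)
    (f : Multiplicative (Fin N × Fin N × Fin N → ZMod p)) :
    sm R f⁻¹ = - sm R f := by
  have h := sm_mul R f f⁻¹
  rw [mul_inv_cancel, sm_one] at h
  exact (neg_eq_of_add_eq_zero_right h.symm).symm

theorem sm_act (R : Fin N × Fin N × Fin N → Prop) (σ : Equiv.Perm (Fin N))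
    (f : Multiplicative (Fin N × Fin N × Fin N → ZMod p)) :
    sm R (actX p N σ f) = sm (fun r => R (tr σ r)) f := by
  unfold sm
  rw [← Equiv.sum_comp (trE σ)]
  refine Finset.sum_congr rfl (fun r _ => ?_)
  show (if R (tr σ r) then (actX p N σ f).toAdd (tr σ r) else 0) = _
  rw [actX_toAdd, ← tr_mul, inv_mul_cancel, tr_one]

theorem sm_single (R : Fin N × Fin N × Fin N → Prop) (r : Fin N × Fin N × Fin N) :
    sm (p := p) R (Multiplicative.ofAdd (Pi.single r 1)) = if R r then 1 else 0 := by
  unfold sm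
  rw [Finset.sum_eq_single r]
  · show (if R r then (Pi.single r 1 : Fin N × Fin N × Fin N → ZMod p) r else 0) = _
    rw [Pi.single_eq_same]
  · intro t _ ht
    show (if R t then (Pi.single r 1 : Fin N × Fin N × Fin N → ZMod p) t else 0) = _
    rw [Pi.single_eq_of_ne ht]
    simp
  · intro h
    exact absurd (Finset.mem_univ _) h

theorem act_single (σ : Equiv.Perm (Fin N)) (r : Fin N × Fin N × Fin N) :
    actX p N σ (Multiplicative.ofAdd (Pi.single r 1)) =
      Multiplicative.ofAdd (Pi.single (tr σ r) 1) := by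
  apply Multiplicative.toAdd.injective
  funext t
  rw [actX_toAdd]
  have h0 : (tr σ⁻¹ t = r) ↔ (t = tr σ r) := by
    constructor
    · rintro rfl
      rw [← tr_mul, mul_inv_cancel, tr_one]
    · rintro rfl
      rw [← tr_mul, inv_mul_cancel, tr_one]
  show (Pi.single r 1 : Fin N × Fin N × Fin N → ZMod p) (tr σ⁻¹ t) =
    (Pi.single (tr σ r) 1 : Fin N × Fin N × Fin N → ZMod p) t
  by_cases h : t = tr σ r
  · rw [h0.mpr h, h, Pi.single_eq_same, Pi.single_eq_same]
  · rw [Pi.single_eq_of_ne h, Pi.single_eq_of_ne (fun h' => h (h0.mp h'))]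

theorem inl_diff_mem (σ : Equiv.Perm (Fin N)) (r : Fin N × Fin N × Fin N) :
    (SemidirectProduct.inl (Multiplicative.ofAdd (Pi.single r 1) *
      (Multiplicative.ofAdd (Pi.single (tr σ r) 1))⁻¹) : XG p N) ∈ commutator (XG p N) := by
  have h : (SemidirectProduct.inl (Multiplicative.ofAdd (Pi.single r 1) *
      (Multiplicative.ofAdd (Pi.single (tr σ r) 1))⁻¹) : XG p N) =
      ⁅(SemidirectProduct.inl (Multiplicative.ofAdd (Pi.single r 1)) : XG p N),
        SemidirectProduct.inr σ⁆ := by
    rw [← act_single, map_mul, map_inv, SemidirectProduct.inl_aut, commutatorElement_def]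
    rw [map_inv]
    group
  rw [h]
  exact Subgroup.commutator_mem_commutator (Subgroup.mem_top _) (Subgroup.mem_top _)

/-- a permutation which satisfies the congruences preserves the relation -/
theorem preserve (hp : p ≠ 2) (R : Fin N × Fin N × Fin N → Prop) (σ : Equiv.Perm (Fin N))
    (h : ∀ r, (if R (tr σ r) then (1 : ZMod p) else 0) - (if R (tr σ (tr σ r)) then 1 else 0) =
      (if R r then 1 else 0) - (if R (tr σ r) then 1 else 0)) (r : Fin N × Fin N × Fin N) :
    R (tr σ r) ↔ R r := by
  have hp1 : (1 : ZMod p) ≠ 0 := one_ne_zero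
  have hp2 : (1 : ZMod p) + 1 ≠ 0 := by
    intro h2
    have h3 : ((2 : ℕ) : ZMod p) = 0 := by
      rw [Nat.cast_ofNat, ← one_add_one_eq_two]
      exact h2
    rw [ZMod.natCast_eq_zero_iff] at h3
    exact hp ((Nat.prime_dvd_prime_iff_eq (Fact.out) Nat.prime_two).mp h3)
  have h1 := h r
  by_cases a : R r <;> by_cases b : R (tr σ r) <;> by_cases c : R (tr σ (tr σ r)) <;>
    simp only [a, b, c, if_true, if_false, iff_true, iff_false, iff_self, not_true] at h1 ⊢
  · exact hp2 (by linear_combination -h1)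
  · exact hp1 (by linear_combination -h1)
  · exact hp1 (by linear_combination h1)
  · exact hp2 (by linear_combination h1)

/-- the construction of the coprime affine situation from a relation -/
theorem frame (ℓ : ℕ) [Fact ℓ.Prime] (hℓ : ℓ ≠ p) (hp : p ≠ 2) (T : Type) [Group T]
    (κ : T →* Equiv.Perm (Fin N)) (hκ : Function.Injective κ)
    (R : Fin N × Fin N × Fin N → Prop)
    (h1 : ∀ t r, R (tr (κ t) r) ↔ R r)
    (h2 : ∀ σ : Equiv.Perm (Fin N), (∀ r, R (tr σ r) ↔ R r) → ∃ t, κ t = σ)
    (h3 : ∀ t, κ t ∈ commutator (Equiv.Perm (Fin N)))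
    (Y : Subgroup (XG p N)) (hY : commutator (XG p N) ≤ Y) : Nonempty (Fr ℓ Y T) := by
  have h4 : ∀ t, (SemidirectProduct.inr (κ t) : XG p N) ∈ Y := by
    intro t
    apply hY
    have : (commutator (Equiv.Perm (Fin N))).map
        (SemidirectProduct.inr : Equiv.Perm (Fin N) →* XG p N) ≤ commutator (XG p N) := by
      rw [commutator_def, commutator_def, Subgroup.map_commutator]
      exact Subgroup.commutator_mono le_top le_top
    exact this ⟨κ t, h3 t, rfl⟩
  -- the projection to the symmetric group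
  let pr : Y →* Equiv.Perm (Fin N) := SemidirectProduct.rightHom.comp Y.subtype
  have hpr : ∀ y : Y, pr y = (y : XG p N).right := fun _ => rfl
  have hV : ∀ y : Y, y ∈ pr.ker ↔ (y : XG p N).right = 1 := fun y => by
    rw [MonoidHom.mem_ker, hpr]
  have hVl : ∀ y : Y, (y : XG p N).right = 1 →
      (y : XG p N) = SemidirectProduct.inl (y : XG p N).left := by
    intro y hy
    conv_lhs => rw [← SemidirectProduct.inl_left_mul_inr_right (y : XG p N), hy]
    rw [map_one, mul_one]
  let io : T →* Y :=
    ((SemidirectProduct.inr : Equiv.Perm (Fin N) →* XG p N).comp κ).codRestrict Y h4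
  have hio : ∀ t, ((io t : Y) : XG p N) = SemidirectProduct.inr (κ t) := fun _ => rfl
  have hlm : ∀ v w : XG p N, v.right = 1 → w.right = 1 → (v * w).left = v.left * w.left := by
    intro v w hv _
    rw [SemidirectProduct.mul_left, hv, map_one, MulAut.one_apply]
  -- conjugation
  have hcr : ∀ x v : XG p N, v.right = 1 → (x * v * x⁻¹).right = 1 := by
    intro x v hv
    rw [SemidirectProduct.mul_right, SemidirectProduct.mul_right, hv,
      SemidirectProduct.inv_right]
    group
  have hcl : ∀ x v : XG p N, v.right = 1 → (x * v * x⁻¹).left = actX p N x.right v.left := by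
    intro x v hv
    rw [SemidirectProduct.mul_left, SemidirectProduct.mul_right, SemidirectProduct.mul_left, hv,
      mul_one, SemidirectProduct.inv_left, ← MulAut.mul_apply, ← map_mul, mul_inv_cancel, map_one,
      MulAut.one_apply, mul_comm x.left, mul_assoc, mul_inv_cancel, mul_one]
  refine ⟨{ V := pr.ker
            norm := inferInstance
            comm := ?_
            cop := ?_
            lam := fun y => if (y : XG p N).right = 1 then
              ZMod.stdAddChar (N := p) (sm R (y : XG p N).left) else 0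
            lam_off := ?_
            lam_one := ?_
            lam_mul := ?_
            io := io
            inj := ?_
            disj := ?_
            stab := ?_ }⟩
  · -- comm
    intro v hv w hw
    apply Subtype.ext
    rw [Subgroup.coe_mul, Subgroup.coe_mul, hVl v ((hV v).mp hv), hVl w ((hV w).mp hw),
      ← map_mul, ← map_mul, mul_comm]
  · -- cop
    have : Finite (XG p N) := Finite.of_equiv _ (SemidirectProduct.equivProd).symm
    have : Finite pr.ker := inferInstance
    have hpg : IsPGroup p pr.ker := by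
      intro v
      refine ⟨1, ?_⟩
      rw [pow_one]
      apply Subtype.ext
      apply Subtype.ext
      rw [Subgroup.coe_pow, Subgroup.coe_pow, hVl v.1 ((hV v.1).mp v.2), ← map_pow]
      have : ((v.1 : XG p N).left) ^ p = 1 := by
        apply Multiplicative.toAdd.injective
        rw [toAdd_pow]
        funext r
        show p • (((v.1 : XG p N).left).toAdd r) = 0
        rw [nsmul_eq_mul, CharP.cast_eq_zero, zero_mul]
      rw [this, map_one]
      rfl
    obtain ⟨k, hk⟩ := (IsPGroup.iff_card).mp hpg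
    rw [hk]
    intro hd
    exact hℓ ((Nat.prime_dvd_prime_iff_eq Fact.out Fact.out).mp
      ((Fact.out : ℓ.Prime).dvd_of_dvd_pow hd))
  · -- lam_off
    intro x hx
    have : ¬ (x : XG p N).right = 1 := fun h => hx ((hV x).mpr h)
    simp only [this, if_false]
  · -- lam_one
    show (if ((1 : Y) : XG p N).right = 1 then
      ZMod.stdAddChar (N := p) (sm R ((1 : Y) : XG p N).left) else 0) = 1
    rw [Subgroup.coe_one, SemidirectProduct.one_right, if_pos rfl, SemidirectProduct.one_left,
      sm_one, AddChar.map_zero_eq_one]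
  · -- lam_mul
    intro v hv w hw
    have hv' := (hV v).mp hv
    have hw' := (hV w).mp hw
    show (if ((v * w : Y) : XG p N).right = 1 then
      ZMod.stdAddChar (N := p) (sm R ((v * w : Y) : XG p N).left) else 0) = 
      (if (v : XG p N).right = 1 then ZMod.stdAddChar (N := p) (sm R (v : XG p N).left) else 0) *
      (if (w : XG p N).right = 1 then ZMod.stdAddChar (N := p) (sm R (w : XG p N).left) else 0)
    have hvw : ((v * w : Y) : XG p N).right = 1 := by
      rw [Subgroup.coe_mul, SemidirectProduct.mul_right, hv', hw', mul_one]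
    rw [if_pos hvw, if_pos hv', if_pos hw', Subgroup.coe_mul, hlm _ _ hv' hw', sm_mul,
      AddChar.map_add_eq_mul]
  · -- inj
    intro a b hab
    apply hκ
    have := congrArg (fun y : Y => (y : XG p N)) hab
    simp only [hio] at this
    exact SemidirectProduct.inr_injective this
  · -- disj
    intro t ht
    have := (hV _).mp ht
    rw [hio, SemidirectProduct.right_inr] at this
    exact hκ (by rw [this, map_one])
  · -- stab
    intro x
    constructor
    · intro hx
      have hpres : ∀ r, R (tr (x : XG p N).right r) ↔ R r := by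
        apply preserve hp R
        intro r
        have hm := hY (inl_diff_mem (p := p) (x : XG p N).right r)
        set g : Multiplicative (Fin N × Fin N × Fin N → ZMod p) :=
          Multiplicative.ofAdd (Pi.single r 1) *
            (Multiplicative.ofAdd (Pi.single (tr (x : XG p N).right r) 1))⁻¹ with hg
        have h5 := hx ⟨SemidirectProduct.inl g, hm⟩
          ((hV _).mpr (SemidirectProduct.right_inl _))
        have h6 : ((⟨SemidirectProduct.inl g, hm⟩ : Y) : XG p N).right = 1 :=
          SemidirectProduct.right_inl _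
        have h7 := hcr (x : XG p N) _ h6
        have h8 := hcl (x : XG p N) _ h6
        simp only [Subgroup.coe_mul, Subgroup.coe_inv] at h5
        rw [if_pos h7, if_pos h6, h8] at h5
        have h9 := ZMod.injective_stdAddChar h5
        rw [SemidirectProduct.left_inl, sm_act, hg, sm_mul, sm_mul, sm_inv, sm_inv, sm_single,
          sm_single, sm_single, sm_single, ← sub_eq_add_neg, ← sub_eq_add_neg] at h9
        exact h9
      obtain ⟨t, ht⟩ := h2 _ hpres
      refine ⟨x * (io t)⁻¹, ?_, t, ?_⟩
      · rw [hV, Subgroup.coe_mul, Subgroup.coe_inv, hio, SemidirectProduct.mul_right,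
          SemidirectProduct.inv_right, SemidirectProduct.right_inr, ht, mul_inv_cancel]
      · rw [inv_mul_cancel_right]
    · rintro ⟨w, hw, t, rfl⟩ v hv
      have hv' := (hV v).mp hv
      have hw' := (hV w).mp hw
      have h7 := hcr ((w * io t : Y) : XG p N) _ hv'
      have h8 := hcl ((w * io t : Y) : XG p N) _ hv'
      show (if (((w * io t) * v * (w * io t)⁻¹ : Y) : XG p N).right = 1 then
        ZMod.stdAddChar (N := p) (sm R (((w * io t) * v * (w * io t)⁻¹ : Y) : XG p N).left) else 0)
          = (if (v : XG p N).right = 1 then ZMod.stdAddChar (N := p) (sm R (v : XG p N).left) else 0)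
      rw [Subgroup.coe_mul, Subgroup.coe_mul (x := w * io t) (y := v), Subgroup.coe_inv,
        if_pos h7, if_pos hv', h8, sm_act]
      have h9 : ((w * io t : Y) : XG p N).right = κ t := by
        rw [Subgroup.coe_mul, SemidirectProduct.mul_right, hw', one_mul, hio,
          SemidirectProduct.right_inr]
      rw [h9]
      have h10 : (fun r => R (tr (κ t) r)) = R := funext (fun r => propext (h1 t r))
      rw [h10]

end relation

/-! ## The relation for powers of a group -/

section power

theorem strictMono_fin {k : ℕ} (f : Fin k → Fin k) (h : ∀ a b, f a < f b ↔ a < b) (a : Fin k) :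
    f a = a := by
  have hf : StrictMono f := fun a b hab => (h a b).mpr hab
  exact congrFun hf.eq_id a

variable (H : Type) [Group H] [Fintype H] (m : ℕ)

/-- the action of `H ^ m` on `(H × Fin 2) × Fin m` -/
def kap : (Fin m → H) →* Equiv.Perm ((H × Fin 2) × Fin m) where
  toFun t :=
    { toFun := fun a => ((t a.2 * a.1.1, a.1.2), a.2)
      invFun := fun a => (((t a.2)⁻¹ * a.1.1, a.1.2), a.2)
      left_inv := fun a => by simp
      right_inv := fun a => by simp }
  map_one' := by
    ext a <;> simp
  map_mul' s t := by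
    ext a <;> simp [mul_assoc]

theorem kap_apply (t : Fin m → H) (a : (H × Fin 2) × Fin m) :
    kap H m t a = ((t a.2 * a.1.1, a.1.2), a.2) := rfl

theorem kap_injective : Function.Injective (kap H m) := by
  intro s t hst
  funext i
  have := congrArg (fun σ : Equiv.Perm ((H × Fin 2) × Fin m) => (σ ((1, 0), i)).1.1) hst
  simpa [kap_apply] using this

/-- the action on the first copy only -/
def kapA (t : Fin m → H) : Equiv.Perm ((H × Fin 2) × Fin m) where
  toFun := fun a => if a.1.2 = 0 then ((t a.2 * a.1.1, a.1.2), a.2) else a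
  invFun := fun a => if a.1.2 = 0 then (((t a.2)⁻¹ * a.1.1, a.1.2), a.2) else a
  left_inv := by
    rintro ⟨⟨x, c⟩, i⟩
    by_cases h : c = 0 <;> simp [h]
  right_inv := by
    rintro ⟨⟨x, c⟩, i⟩
    by_cases h : c = 0 <;> simp [h]

/-- exchange of the copies -/
def kapS : Equiv.Perm ((H × Fin 2) × Fin m) where
  toFun := fun a => ((a.1.1, 1 - a.1.2), a.2)
  invFun := fun a => ((a.1.1, 1 - a.1.2), a.2)
  left_inv := fun a => by simp
  right_inv := fun a => by simp

theorem kap_eq (t : Fin m → H) :
    kap H m t = kapA H m t * (kapS H m * kapA H m t * (kapS H m)⁻¹) := by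
  apply Equiv.ext
  rintro ⟨⟨x, c⟩, i⟩
  have hS : (kapS H m)⁻¹ = kapS H m := rfl
  rw [hS]
  show ((t i * x, c), i) = kapA H m t (kapS H m (kapA H m t (kapS H m ((x, c), i))))
  fin_cases c
  · simp [kapA, kapS]
  · simp [kapA, kapS]

theorem kap_mem (t : Fin m → H) : kap H m t ∈ commutator (Equiv.Perm ((H × Fin 2) × Fin m)) := by
  have hc : IsConj (kapA H m t) (kapA H m t)⁻¹ := by
    rw [Equiv.Perm.isConj_iff_cycleType_eq, Equiv.Perm.cycleType_inv]
  obtain ⟨g, hg⟩ := isConj_iff.mp hc
  have h1 : kap H m t = ⁅kapA H m t, g⁆ * ⁅(kapA H m t)⁻¹, kapS H m⁆ := by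
    have hg' : g * (kapA H m t)⁻¹ * g⁻¹ = kapA H m t := by
      have h3 := congrArg (fun z => z⁻¹) hg
      simp only [mul_inv_rev, inv_inv] at h3
      rw [mul_assoc]
      exact h3
    have h2 : ⁅kapA H m t, g⁆ = kapA H m t * kapA H m t := by
      rw [commutatorElement_def]
      calc kapA H m t * g * (kapA H m t)⁻¹ * g⁻¹
          = kapA H m t * (g * (kapA H m t)⁻¹ * g⁻¹) := by group
        _ = _ := by rw [hg']
    rw [h2, kap_eq, commutatorElement_def]
    group
  rw [h1]
  exact mul_mem (Subgroup.commutator_mem_commutator (Subgroup.mem_top _) (Subgroup.mem_top _))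
    (Subgroup.commutator_mem_commutator (Subgroup.mem_top _) (Subgroup.mem_top _))

variable {H m}

/-- the relation -/
def rel (rk : H × Fin 2 ≃ Fin (Nat.card (H × Fin 2))) (a b c : (H × Fin 2) × Fin m) : Prop :=
  (a.2 = b.2 ∧ b.2 = c.2 ∧ a.1.2 = 0 ∧ rk (a.1.1⁻¹ * b.1.1, b.1.2) < rk (a.1.1⁻¹ * c.1.1, c.1.2)) ∨
    (b = c ∧ a.2 < b.2)

theorem rel_kap (rk : H × Fin 2 ≃ Fin (Nat.card (H × Fin 2))) (t : Fin m → H)
    (a b c : (H × Fin 2) × Fin m) :
    rel rk (kap H m t a) (kap H m t b) (kap H m t c) ↔ rel rk a b c := by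
  unfold rel
  rw [EmbeddingLike.apply_eq_iff_eq]
  simp only [kap_apply]
  refine or_congr ?_ Iff.rfl
  constructor
  · rintro ⟨h1, h2, h3, h4⟩
    refine ⟨h1, h2, h3, ?_⟩
    rw [← h2, ← h1] at h4
    simpa [mul_assoc] using h4
  · rintro ⟨h1, h2, h3, h4⟩
    refine ⟨h1, h2, h3, ?_⟩
    rw [← h2, ← h1]
    simpa [mul_assoc] using h4

theorem rel_aut (rk : H × Fin 2 ≃ Fin (Nat.card (H × Fin 2)))
    (σ : Equiv.Perm ((H × Fin 2) × Fin m))
    (h : ∀ a b c, rel rk (σ a) (σ b) (σ c) ↔ rel rk a b c) :
    ∃ t, kap H m t = σ := by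
  -- blocks
  have hb : ∀ a b : (H × Fin 2) × Fin m, rel rk a b b ↔ a.2 < b.2 := by
    intro a b
    unfold rel
    simp
  have hblk : ∀ a b, (σ a).2 < (σ b).2 ↔ a.2 < b.2 := by
    intro a b
    rw [← hb, ← hb, h]
  have hblk2 : ∀ a b : (H × Fin 2) × Fin m, a.2 = b.2 → (σ a).2 = (σ b).2 := by
    intro a b hab
    apply le_antisymm
    · rw [← not_lt, hblk, hab]
      exact lt_irrefl _
    · rw [← not_lt, hblk, hab]
      exact lt_irrefl _
  have hblk3 : ∀ a, (σ a).2 = a.2 := by
    intro a
    rw [hblk2 a ((1, 0), a.2) rfl]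
    exact strictMono_fin (fun i => (σ ((1, 0), i)).2) (fun i j => hblk _ _) a.2
  -- the first copy
  have hcopy : ∀ a, a.1.2 = 0 → (σ a).1.2 = 0 := by
    intro a ha
    have hne : (((1 : H), (0 : Fin 2)), a.2) ≠ ((1, 1), a.2) := by
      intro h'
      simp at h'
    have hrk : rk (a.1.1⁻¹ * 1, 0) ≠ rk (a.1.1⁻¹ * 1, 1) := by
      intro h'
      have := rk.injective h'
      simp at this
    rcases lt_or_gt_of_ne hrk with h' | h'
    · have h1 : rel rk a ((1, 0), a.2) ((1, 1), a.2) := Or.inl ⟨rfl, rfl, ha, h'⟩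
      rw [← h] at h1
      rcases h1 with h1 | h1
      · exact h1.2.2.1
      · exact absurd (σ.injective h1.1) hne
    · have h1 : rel rk a ((1, 1), a.2) ((1, 0), a.2) := Or.inl ⟨rfl, rfl, ha, h'⟩
      rw [← h] at h1
      rcases h1 with h1 | h1
      · exact h1.2.2.1
      · exact absurd (σ.injective h1.1).symm hne
  refine ⟨fun i => (σ ((1, 0), i)).1.1, ?_⟩
  apply Equiv.ext
  rintro ⟨b, i⟩
  rw [kap_apply]
  -- the order on block `i`
  have hord : ∀ b c : H × Fin 2,
      rk (((σ ((1, 0), i)).1.1)⁻¹ * (σ (b, i)).1.1, (σ (b, i)).1.2) <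
        rk (((σ ((1, 0), i)).1.1)⁻¹ * (σ (c, i)).1.1, (σ (c, i)).1.2) ↔ rk b < rk c := by
    intro b c
    have h1 : rel rk ((1, 0), i) (b, i) (c, i) ↔ rk b < rk c := by
      unfold rel
      simp
    have h2 : rel rk (σ ((1, 0), i)) (σ (b, i)) (σ (c, i)) ↔
        rk (((σ ((1, 0), i)).1.1)⁻¹ * (σ (b, i)).1.1, (σ (b, i)).1.2) <
        rk (((σ ((1, 0), i)).1.1)⁻¹ * (σ (c, i)).1.1, (σ (c, i)).1.2) := by
      unfold rel
      rw [hblk3, hblk3, hblk3, hcopy ((1, 0), i) rfl]
      simp
    rw [← h2, h, h1]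
  have hid := strictMono_fin (fun k => rk (((σ ((1, 0), i)).1.1)⁻¹ * (σ (rk.symm k, i)).1.1,
    (σ (rk.symm k, i)).1.2)) (fun k l => by rw [hord, Equiv.apply_symm_apply,
      Equiv.apply_symm_apply]) (rk b)
  simp only [Equiv.symm_apply_apply] at hid
  have hid2 := rk.injective hid
  have e1 : (σ (b, i)).1.1 = (σ ((1, 0), i)).1.1 * b.1 := by
    have := congrArg Prod.fst hid2
    simp only at this
    rw [← this]
    group
  have e2 : (σ (b, i)).1.2 = b.2 := by
    have := congrArg Prod.snd hid2
    simpa using this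
  refine Prod.ext (Prod.ext ?_ ?_) ?_
  · exact e1.symm
  · exact e2.symm
  · exact (hblk3 (b, i)).symm

end power

end X1

open X1 in
theorem x1 : T_X1 := by
  intro ℓ p _ _ hℓ hp H _ _ m Y hY
  have hcard : Nat.card ((H × Fin 2) × Fin m) = 2 * (Nat.card H * m) := by
    rw [Nat.card_prod, Nat.card_prod]
    simp
    ring
  let e : (H × Fin 2) × Fin m ≃ Fin (2 * (Nat.card H * m)) := Finite.equivFinOfCardEq hcard
  let rk : H × Fin 2 ≃ Fin (Nat.card (H × Fin 2)) := Finite.equivFin _
  let κ : (Fin m → H) →* Equiv.Perm (Fin (2 * (Nat.card H * m))) :=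
    (e.permCongrHom : Equiv.Perm ((H × Fin 2) × Fin m) →* _).comp (kap H m)
  have hκa : ∀ t x, κ t x = e (kap H m t (e.symm x)) := fun _ _ => rfl
  refine frame ℓ hℓ hp (Fin m → H) κ ?_
    (fun r => rel rk (e.symm r.1) (e.symm r.2.1) (e.symm r.2.2)) ?_ ?_ ?_ Y hY
  · exact (e.permCongrHom.injective).comp (kap_injective H m)
  · intro t r
    simp only [tr, hκa, Equiv.symm_apply_apply]
    exact rel_kap rk t _ _ _
  · intro σ hσ
    obtain ⟨t, ht⟩ := rel_aut rk (e.permCongrHom.symm σ) (fun a b c => by
      have := hσ (e a, e b, e c)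
      simp only [tr, Equiv.symm_apply_apply] at this
      exact this)
    refine ⟨t, ?_⟩
    show e.permCongrHom (kap H m t) = σ
    rw [ht, MulEquiv.apply_symm_apply]
  · intro t
    have h1 := kap_mem H m t
    have h2 : (commutator (Equiv.Perm ((H × Fin 2) × Fin m))).map
        (e.permCongrHom : Equiv.Perm ((H × Fin 2) × Fin m) →* _) ≤
        commutator (Equiv.Perm (Fin (2 * (Nat.card H * m)))) := by
      rw [commutator_def, commutator_def, Subgroup.map_commutator]
      exact Subgroup.commutator_mono le_top le_top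
    exact h2 ⟨_, h1, rfl⟩

end AMx
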