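import Pool.Agent.H4.AM.Targets

/-!
# Alperin–McKay (MP_657073_al): module X2, the commutator subgroup of `F_p^(N^3) ⋊ S_N` is perfect
-/

open scoped Classical

namespace AMx

section x2

/-- enough points outside three given ones -/
theorem exists_two_outside (N : ℕ) (hN : 5 ≤ N) (a b c : Fin N) :
    ∃ x y : Fin N, x ≠ y ∧ x ≠ a ∧ x ≠ b ∧ x ≠ c ∧ y ≠ a ∧ y ≠ b ∧ y ≠ c := by
  have h : 1 < (({a, b, c} : Finset (Fin N))ᶜ).card := by
    rw [Finset.card_compl, Fintype.card_fin]
    have h3 : ({a, b, c} : Finset (Fin N)).card ≤ 3 := Finset.card_le_three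
    omega
  obtain ⟨x, hx, y, hy, hxy⟩ := Finset.one_lt_card.mp h
  simp only [Finset.mem_compl, Finset.mem_insert, Finset.mem_singleton, not_or] at hx hy
  exact ⟨x, y, hxy, hx.1, hx.2.1, hx.2.2, hy.1, hy.2.1, hy.2.2⟩

/-- an even permutation agreeing with a given permutation at three points -/
theorem exists_even_agree (N : ℕ) (hN : 5 ≤ N) (σ : Equiv.Perm (Fin N)) (a b c : Fin N) :
    ∃ s ∈ alternatingGroup (Fin N), s a = σ a ∧ s b = σ b ∧ s c = σ c := by
  obtain ⟨x, y, hxy, hxa, hxb, hxc, hya, hyb, hyc⟩ := exists_two_outside N hN a b c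
  rcases Int.units_eq_one_or (Equiv.Perm.sign σ) with h | h
  · exact ⟨σ, h, rfl, rfl, rfl⟩
  · refine ⟨σ * Equiv.swap x y, ?_, ?_, ?_, ?_⟩
    · rw [Equiv.Perm.mem_alternatingGroup, Equiv.Perm.sign_mul, Equiv.Perm.sign_swap hxy, h]
      rfl
    · rw [Equiv.Perm.mul_apply, Equiv.swap_apply_of_ne_of_ne hxa.symm hya.symm]
    · rw [Equiv.Perm.mul_apply, Equiv.swap_apply_of_ne_of_ne hxb.symm hyb.symm]
    · rw [Equiv.Perm.mul_apply, Equiv.swap_apply_of_ne_of_ne hxc.symm hyc.symm]

theorem x2 : T_X2 := by
  intro p N _ hN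
  -- the subgroups
  set P : Subgroup (XG p N) := commutator (XG p N) with hP
  have hPn : P.Normal := inferInstance
  set Q : Subgroup (XG p N) := ⁅P, P⁆ with hQ
  have hQn : Q.Normal := inferInstance
  have hcard : 5 ≤ Nat.card (Fin N) := by simpa using hN
  let π : XG p N →* XG p N ⧸ Q := QuotientGroup.mk' Q
  -- the alternating group lies in `Q`
  have hA : ∀ s ∈ alternatingGroup (Fin N), π (SemidirectProduct.inr s) = 1 := by
    intro s hs
    have h1 : (alternatingGroup (Fin N)).map
        (SemidirectProduct.inr : Equiv.Perm (Fin N) →* XG p N) ≤ P := by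
      rw [← alternatingGroup.commutator_perm_eq hcard, hP]
      rw [commutator_def, commutator_def, Subgroup.map_commutator]
      exact Subgroup.commutator_mono le_top le_top
    have h2 : (alternatingGroup (Fin N)).map
        (SemidirectProduct.inr : Equiv.Perm (Fin N) →* XG p N) ≤ Q := by
      have h3 := commutator_alternatingGroup_eq_self hcard
      calc (alternatingGroup (Fin N)).map
            (SemidirectProduct.inr : Equiv.Perm (Fin N) →* XG p N)
          = (⁅alternatingGroup (Fin N), alternatingGroup (Fin N)⁆).map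
            (SemidirectProduct.inr : Equiv.Perm (Fin N) →* XG p N) := by rw [h3]
        _ = ⁅(alternatingGroup (Fin N)).map
              (SemidirectProduct.inr : Equiv.Perm (Fin N) →* XG p N),
            (alternatingGroup (Fin N)).map
              (SemidirectProduct.inr : Equiv.Perm (Fin N) →* XG p N)⁆ :=
            Subgroup.map_commutator _ _ _
        _ ≤ Q := Subgroup.commutator_mono h1 h1
    have h4 : (SemidirectProduct.inr s : XG p N) ∈ Q := h2 ⟨s, hs, rfl⟩
    exact (QuotientGroup.eq_one_iff _).mpr h4
  -- conjugation by an even permutation is trivial modulo `Q`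
  have hconj : ∀ s ∈ alternatingGroup (Fin N),
      ∀ f : Multiplicative (Fin N × Fin N × Fin N → ZMod p),
        π (SemidirectProduct.inl (actX p N s f)) = π (SemidirectProduct.inl f) := by
    intro s hs f
    rw [SemidirectProduct.inl_aut, map_mul, map_mul, hA s hs, hA s⁻¹ (inv_mem hs)]
    simp
  -- single functions
  have hsingle : ∀ (σ : Equiv.Perm (Fin N)) (r : Fin N × Fin N × Fin N) (a : ZMod p),
      actX p N σ (Multiplicative.ofAdd (Pi.single r a)) =
        Multiplicative.ofAdd (Pi.single (σ r.1, σ r.2.1, σ r.2.2) a) := by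
    intro σ r a
    apply Multiplicative.toAdd.injective
    funext t
    have : ((σ⁻¹ t.1, σ⁻¹ t.2.1, σ⁻¹ t.2.2) = r) ↔ (t = (σ r.1, σ r.2.1, σ r.2.2)) := by
      constructor
      · rintro rfl
        simp
      · rintro rfl
        simp
    show (Pi.single r a : Fin N × Fin N × Fin N → ZMod p) (σ⁻¹ t.1, σ⁻¹ t.2.1, σ⁻¹ t.2.2) =
      (Pi.single (σ r.1, σ r.2.1, σ r.2.2) a : Fin N × Fin N × Fin N → ZMod p) t
    by_cases h : t = (σ r.1, σ r.2.1, σ r.2.2)
    · rw [this.mpr h, h, Pi.single_eq_same, Pi.single_eq_same]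
    · rw [Pi.single_eq_of_ne h, Pi.single_eq_of_ne (fun h' => h (this.mp h'))]
  have hcomS : ∀ (σ : Equiv.Perm (Fin N)) (r : Fin N × Fin N × Fin N) (a : ZMod p),
      Commute (π (SemidirectProduct.inr σ))
        (π (SemidirectProduct.inl (Multiplicative.ofAdd (Pi.single r a)))) := by
    intro σ r a
    obtain ⟨s, hs, h1, h2, h3⟩ := exists_even_agree N hN σ r.1 r.2.1 r.2.2
    have e1 : π (SemidirectProduct.inl (actX p N σ (Multiplicative.ofAdd (Pi.single r a)))) =
        π (SemidirectProduct.inl (Multiplicative.ofAdd (Pi.single r a))) := by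
      have e0 := hconj s hs (Multiplicative.ofAdd (Pi.single r a))
      rw [hsingle, h1, h2, h3] at e0
      rw [hsingle, e0]
    rw [SemidirectProduct.inl_aut, map_mul, map_mul, map_inv, map_inv] at e1
    rw [commute_iff_eq]
    exact mul_inv_eq_iff_eq_mul.mp e1
  have hcomV : ∀ (σ : Equiv.Perm (Fin N))
      (f : Multiplicative (Fin N × Fin N × Fin N → ZMod p)),
      Commute (π (SemidirectProduct.inr σ)) (π (SemidirectProduct.inl f)) := by
    intro σ f
    have hf : f = ∏ r, Multiplicative.ofAdd (Pi.single r (f.toAdd r)) := by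
      rw [← ofAdd_sum, Finset.univ_sum_single]
      rfl
    rw [hf]
    refine Finset.prod_induction _ (fun z : Multiplicative (Fin N × Fin N × Fin N → ZMod p) =>
      Commute (π (SemidirectProduct.inr σ)) (π (SemidirectProduct.inl z)))
      (fun a b ha hb => ?_) ?_ (fun r _ => hcomS σ r _)
    · show Commute _ (π (SemidirectProduct.inl (a * b)))
      rw [map_mul, map_mul]
      exact ha.mul_right hb
    · show Commute _ (π (SemidirectProduct.inl 1))
      rw [map_one, map_one]
      exact Commute.one_right _
  have hcomP : ∀ σ τ : Equiv.Perm (Fin N),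
      Commute (π (SemidirectProduct.inr σ)) (π (SemidirectProduct.inr τ)) := by
    intro σ τ
    rw [← commutatorElement_eq_one_iff_commute, ← map_commutatorElement,
      ← map_commutatorElement]
    apply hA
    rw [← alternatingGroup.commutator_perm_eq hcard]
    exact Subgroup.commutator_mem_commutator (Subgroup.mem_top _) (Subgroup.mem_top _)
  have hcomI : ∀ f g : Multiplicative (Fin N × Fin N × Fin N → ZMod p),
      Commute (π (SemidirectProduct.inl f)) (π (SemidirectProduct.inl g)) := by
    intro f g
    exact ((Commute.all f g).map (SemidirectProduct.inl : _ →* XG p N)).map π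
  have hall : ∀ x y : XG p N, Commute (π x) (π y) := by
    intro x y
    rw [← SemidirectProduct.inl_left_mul_inr_right x, ← SemidirectProduct.inl_left_mul_inr_right y,
      map_mul, map_mul]
    exact ((hcomI _ _).mul_right (hcomV _ _).symm).mul_left
      ((hcomV _ _).mul_right (hcomP _ _))
  have hPQ : P ≤ Q := by
    rw [hP, commutator_def, Subgroup.commutator_le]
    intro x _ y _
    have := hall x y
    rw [← commutatorElement_eq_one_iff_commute, ← map_commutatorElement] at this
    exact (QuotientGroup.eq_one_iff _).mp this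
  have hQP : Q = P := le_antisymm (Subgroup.commutator_le_left _ _) hPQ
  -- conclusion
  apply Subgroup.map_injective (Subgroup.subtype_injective P)
  rw [Subgroup.map_subtype_commutator, ← hQ, hQP]
  rw [← MonoidHom.range_eq_map, Subgroup.range_subtype]

end x2

end AMx
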